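import Pool.Agent.K7.H96.AT.Forward

set_option autoImplicit false

/-!
# The de Almeida-Thouless line of the Sherrington-Kirkpatrick model

The definitions used by the statement are in `Pool.Agent.K7.H96.AT.Def`.
-/

open MeasureTheory ProbabilityTheory Set

namespace Pool.Agent.Results.MP_aa848e_pr.ATLine

open Pool.Agent.K7.H96.AT

/-- If the de Almeida-Thouless condition `β² E cosh⁻⁴(β z √(2 q) + h) ≤ 1/2` holds, where `q` is the
largest solution in `[0, 1]` of `q = E tanh²(β z √(2 q) + h)`, then the point mass at `q` minimises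
the Parisi functional, and it is the only minimiser. -/
theorem result (β h q : ℝ) (hβ : 0 < β) (hq : IsLargestOverlap β h q)
    (hAT : β ^ 2 * ∫ z, 1 / Real.cosh (β * z * √(2 * q) + h) ^ 4 ∂(gaussianReal 0 1) ≤ 1 / 2) :
    IsParisiMeasure β h (Measure.dirac q) ∧
      ∀ μ, IsParisiMeasure β h μ → μ = Measure.dirac q :=
  forward_direction hβ hq hAT

end Pool.Agent.Results.MP_aa848e_pr.ATLine
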